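import Mathlib
import Pool.Agent.W676.GS.Basics

set_option autoImplicit false

namespace Pool.Agent.W949.GS

open Pool.Agent.W676.GS

/-- the sign of the index -/
def sg (i : ℕ) : ℤ := if i % 2 = 0 then 1 else -1

lemma sg_sq (i : ℕ) : sg i * sg i = 1 := by
  unfold sg; split_ifs <;> norm_num

lemma sg_cases (i : ℕ) : sg i = 1 ∨ sg i = -1 := by
  unfold sg; split_ifs <;> simp

/-- the numbers -/
def xs (K i : ℕ) : ℕ := if i % 2 = 0 then (i + 1) * K + 1 else (i + 1) * K - 1

lemma xs_cast {K : ℕ} (hK : 1 ≤ K) (i : ℕ) : (xs K i : ℤ) = ((i : ℤ) + 1) * K + sg i := by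
  unfold xs sg
  have h1 : 1 ≤ (i + 1) * K := Nat.mul_pos (Nat.succ_pos i) hK
  split_ifs
  · push_cast; ring
  · rw [Nat.cast_sub h1]; push_cast; ring

lemma sum_xs {K : ℕ} (hK : 1 ≤ K) (m : ℕ) :
    ∑ i ∈ Finset.range (2 * m), xs K i = K * (m * (2 * m + 1)) := by
  induction m with
  | zero => simp
  | succ m ih =>
    have e : 2 * (m + 1) = 2 * m + 1 + 1 := by ring
    rw [e, Finset.sum_range_succ, Finset.sum_range_succ, ih]
    have h1 : xs K (2 * m) = (2 * m + 1) * K + 1 := by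
      unfold xs; rw [if_pos (by omega)]
    have h2 : xs K (2 * m + 1) = (2 * m + 1 + 1) * K - 1 := by
      unfold xs; rw [if_neg (by omega)]
    rw [h1, h2]
    have h3 : 1 ≤ (2 * m + 1 + 1) * K := Nat.mul_pos (by omega) hK
    zify [h3]
    ring

lemma cop_aux {z z' K c s : ℤ} (h : IsCoprime z K) (hc : c ∣ K) (he : z - s * z' = c * K) :
    IsCoprime z z' := by
  have h1 : IsCoprime z (c * K) := IsCoprime.mul_right (h.of_isCoprime_of_dvd_right hc) h
  obtain ⟨a, b, hab⟩ := h1
  refine ⟨a + b, -(b * s), ?_⟩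
  rw [← he] at hab
  linear_combination hab

theorem nt1 : S_NT1 := by
  intro B μ hB hμ
  obtain ⟨m, hm⟩ := exists_nat_ge (1 / μ)
  obtain ⟨m, hm1, hm⟩ : ∃ m : ℕ, 1 ≤ m ∧ 1 / μ ≤ m := by
    refine ⟨m + 1, by omega, ?_⟩
    push_cast; linarith
  set M := 2 * m with hM
  set J := 4 * (m * (2 * m + 1)) with hJ
  set N := 2 * J + 2 * M + 2 with hN
  set K := B * N.factorial with hK
  have hfac : 2 ≤ N.factorial := by
    have : N ≤ N.factorial := Nat.self_le_factorial N
    omega
  have hK2 : 2 ≤ K := by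
    calc 2 ≤ N.factorial := hfac
      _ = 1 * N.factorial := (one_mul _).symm
      _ ≤ B * N.factorial := Nat.mul_le_mul_right _ hB
  have hK1 : 1 ≤ K := by omega
  have hdvd : ∀ c : ℕ, 1 ≤ c → c ≤ N → c ∣ K := fun c h1 h2 =>
    Dvd.dvd.mul_left (Nat.dvd_factorial h1 h2) B
  have hJK : J ∣ K := hdvd J (by rw [hJ]; exact Nat.mul_pos (by norm_num) (Nat.mul_pos hm1 (Nat.succ_pos _))) (by omega)
  have hBK : (B : ℤ) ∣ K := by exact_mod_cast Dvd.intro _ rfl
  -- `y + x i` is coprime to `K`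
  have hz : ∀ i, IsCoprime (((J * K + xs K i : ℕ) : ℤ)) (K : ℤ) := by
    intro i
    refine ⟨sg i, -(sg i * ((J : ℤ) + i + 1)), ?_⟩
    push_cast
    rw [xs_cast hK1]
    linear_combination sg_sq i
  have hx : ∀ i, IsCoprime ((xs K i : ℕ) : ℤ) (K : ℤ) := by
    intro i
    refine ⟨sg i, -(sg i * ((i : ℤ) + 1)), ?_⟩
    rw [xs_cast hK1]
    linear_combination sg_sq i
  refine ⟨M, J * K, xs K, by omega, ?_, ?_, ?_, ?_, ?_, ?_, ?_, ?_⟩
  · exact Nat.mul_pos (by rw [hJ]; exact Nat.mul_pos (by norm_num) (Nat.mul_pos hm1 (Nat.succ_pos _))) hK1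
  · exact ⟨2 * (m * (2 * m + 1)) * K, by rw [hJ]; ring⟩
  · intro i _
    have h := xs_cast hK1 i
    have h2 : (2 : ℤ) ≤ K := by exact_mod_cast hK2
    have h3 : (0 : ℤ) ≤ i := by positivity
    have h4 : (0 : ℤ) < xs K i := by
      rw [h]
      rcases sg_cases i with h5 | h5 <;> rw [h5] <;> nlinarith
    exact_mod_cast h4
  · rw [hM, sum_xs hK1, hJ]; ring
  · intro i hi
    have h := xs_cast hK1 i
    have hb : (xs K i : ℤ) ≤ ((M : ℤ) + 1) * K := by
      rw [h]
      have h2 : (2 : ℤ) ≤ K := by exact_mod_cast hK2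
      have h3 : (i : ℤ) + 1 ≤ M := by exact_mod_cast hi
      rcases sg_cases i with h5 | h5 <;> rw [h5] <;> nlinarith
    have hb' : (xs K i : ℝ) ≤ ((M : ℝ) + 1) * K := by exact_mod_cast hb
    refine hb'.trans ?_
    have hmpos : (1 : ℝ) ≤ m := by exact_mod_cast hm1
    have h6 : 1 ≤ μ * m := by
      have := mul_le_mul_of_nonneg_left hm hμ.le
      rwa [mul_one_div_cancel hμ.ne'] at this
    have hKr : (0 : ℝ) < K := by exact_mod_cast (by omega : 0 < K)
    have e : ((J * K : ℕ) : ℝ) = 4 * (m * (2 * m + 1)) * K := by rw [hJ]; push_cast; ring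
    have e2 : (M : ℝ) = 2 * m := by rw [hM]; push_cast; ring
    rw [e, e2]
    have h7 : (2 * (m : ℝ) + 1) ≤ μ * (4 * (m * (2 * m + 1))) := by nlinarith
    calc (2 * (m : ℝ) + 1) * K ≤ μ * (4 * (m * (2 * m + 1))) * K :=
          mul_le_mul_of_nonneg_right h7 hKr.le
      _ = μ * (4 * (m * (2 * m + 1)) * K) := by ring
  · intro i _
    have h1 : Nat.Coprime (xs K i) (J * K) := by
      rw [← Nat.isCoprime_iff_coprime]
      push_cast
      refine IsCoprime.mul_right ((hx i).of_isCoprime_of_dvd_right ?_) (hx i)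
      exact_mod_cast hJK
    have h2 : Nat.Coprime (J * K) (xs K i) := h1.symm
    simpa using h2
  · intro i _
    rw [← Nat.isCoprime_iff_coprime]
    exact (hz i).of_isCoprime_of_dvd_right hBK
  · intro i hi i' hi' hne
    rw [← Nat.isCoprime_iff_coprime]
    by_cases hs : sg i = sg i'
    · -- the difference
      refine cop_aux (c := (i : ℤ) - i') (s := 1) (hz i) ?_ ?_
      · have hd : (i : ℤ) - i' ∣ K := by
          have h1 : ((i : ℤ) - i').natAbs ∣ K := hdvd _ (by omega) (by omega)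
          exact Int.natAbs_dvd.1 (by exact_mod_cast h1)
        exact hd
      · push_cast
        rw [xs_cast hK1, xs_cast hK1, hs]; ring
    · have hs2 : sg i' = - sg i := by
        rcases sg_cases i with h5 | h5
        · rcases sg_cases i' with h6 | h6
          · exact absurd (h5.trans h6.symm) hs
          · rw [h5, h6]
        · rcases sg_cases i' with h6 | h6
          · rw [h5, h6]; norm_num
          · exact absurd (h5.trans h6.symm) hs
      refine cop_aux (c := 2 * (J : ℤ) + i + i' + 2) (s := -1) (hz i) ?_ ?_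
      · have h1 : 2 * J + i + i' + 2 ∣ K := hdvd _ (by omega) (by omega)
        exact_mod_cast h1
      · push_cast
        rw [xs_cast hK1, xs_cast hK1, hs2]; ring

end Pool.Agent.W949.GS
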