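import Mathlib
import Pool.Agent.W676.GS.Basics

set_option autoImplicit false

namespace Pool.Agent.W949.GS

open Pool.Agent.W676.GS

theorem nt2 : S_NT2 := by
  intro B M y N₀ x hB hy h1 h2 h3
  -- the moduli and the products
  set m : ℕ → ℤ := fun i => (y : ℤ) + x i with hm
  set P : ℤ := B * ∏ j ∈ Finset.range M, m j with hP
  set Q : ℕ → ℤ := fun i => B * ∏ j ∈ (Finset.range M).erase i, m j with hQ
  set t : ℕ → ℤ := fun i => (y : ℤ) / 2 + ∑ j ∈ Finset.range i, (x j : ℤ) + x i with ht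
  have hmpos : ∀ i, 1 ≤ m i := by
    intro i
    have : (1 : ℤ) ≤ y := by exact_mod_cast hy
    have h4 : (0 : ℤ) ≤ x i := by positivity
    simp only [hm]; linarith
  have hPpos : 1 ≤ P := by
    have h4 : (0 : ℤ) < ∏ j ∈ Finset.range M, m j :=
      Finset.prod_pos fun j _ => lt_of_lt_of_le zero_lt_one (hmpos j)
    have h5 : (0 : ℤ) < B := by exact_mod_cast hB
    have := mul_pos h5 h4
    omega
  have hcop : ∀ i, i < M → IsCoprime ((x i : ℤ) * Q i) (m i) := by
    intro i hi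
    have c1 : IsCoprime (m i) (x i : ℤ) := by
      have := Nat.isCoprime_iff_coprime.2 (h1 i hi)
      simpa [hm] using this
    have c2 : IsCoprime (m i) (B : ℤ) := by
      have := Nat.isCoprime_iff_coprime.2 (h2 i hi)
      simpa [hm] using this
    have c3 : IsCoprime (m i) (∏ j ∈ (Finset.range M).erase i, m j) := by
      refine IsCoprime.prod_right fun j hj => ?_
      rw [Finset.mem_erase, Finset.mem_range] at hj
      have := Nat.isCoprime_iff_coprime.2 (h3 i hi j hj.2 (Ne.symm hj.1))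
      simpa [hm] using this
    exact (c1.mul_right (c2.mul_right c3)).symm
  have hex : ∀ i, ∃ n0 : ℤ, i < M → (Q i ∣ n0 ∧ m i ∣ (x i : ℤ) * n0 - t i) := by
    intro i
    by_cases hi : i < M
    · obtain ⟨a, b, hab⟩ := hcop i hi
      refine ⟨Q i * (a * t i), fun _ => ⟨Dvd.intro _ rfl, ⟨-(b * t i), ?_⟩⟩⟩
      linear_combination (t i) * hab
    · exact ⟨0, fun h => absurd h hi⟩
  choose n0 hn0 using hex
  set N : ℕ → ℤ := fun i => n0 i % P + P * ((N₀ : ℤ) + i) with hN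
  have hNe : ∀ i, N i = n0 i + P * (((N₀ : ℤ) + i) - n0 i / P) := by
    intro i
    simp only [hN]
    rw [Int.emod_def]; ring
  have hmod0 : ∀ i, 0 ≤ n0 i % P := fun i => Int.emod_nonneg _ (by omega)
  have hmod1 : ∀ i, n0 i % P < P := fun i => Int.emod_lt_of_pos _ (by omega)
  have hN0 : ∀ i, (N₀ : ℤ) ≤ N i := by
    intro i
    have h4 : (0 : ℤ) ≤ (N₀ : ℤ) + i := by positivity
    have h5 := hmod0 i
    simp only [hN]
    have : (N₀ : ℤ) + i ≤ P * ((N₀ : ℤ) + i) := by nlinarith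
    have h6 : (0 : ℤ) ≤ i := by positivity
    linarith
  have hcast : ∀ i, (((N i).toNat : ℕ) : ℤ) = N i := by
    intro i
    apply Int.toNat_of_nonneg
    have : (0 : ℤ) ≤ N₀ := by positivity
    exact this.trans (hN0 i)
  have hmP : ∀ i, i < M → m i ∣ P := fun i hi =>
    Dvd.dvd.mul_left (Finset.dvd_prod_of_mem m (Finset.mem_range.2 hi)) _
  refine ⟨fun i => (N i).toNat, ?_, ?_, ?_, ?_, ?_⟩
  · intro i _
    have h4 := hN0 i
    have h5 := hcast i
    exact_mod_cast (show (N₀ : ℤ) ≤ (((N i).toNat : ℕ) : ℤ) by rw [h5]; exact h4)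
  · intro i hi
    have h4 : (B : ℤ) ∣ (((N i).toNat : ℕ) : ℤ) := by
      rw [hcast, hNe]
      refine dvd_add ((Dvd.intro _ rfl : (B : ℤ) ∣ Q i).trans (hn0 i hi).1) ?_
      exact Dvd.dvd.mul_right (Dvd.intro _ rfl) _
    exact_mod_cast h4
  · intro i hi i' hi' hne
    have h4 : m i' ∣ (((N i).toNat : ℕ) : ℤ) := by
      rw [hcast, hNe]
      refine dvd_add ?_ (Dvd.dvd.mul_right (hmP i' hi') _)
      refine dvd_trans ?_ (hn0 i hi).1
      refine Dvd.dvd.mul_left (Finset.dvd_prod_of_mem m ?_) _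
      exact Finset.mem_erase.2 ⟨hne, Finset.mem_range.2 hi'⟩
    have h5 : ((y + x i' : ℕ) : ℤ) ∣ (((N i).toNat : ℕ) : ℤ) := by
      simpa [hm] using h4
    exact_mod_cast h5
  · intro i hi
    rw [hcast, hNe]
    have h4 : m i ∣ ((x i : ℤ) * n0 i - t i) + (x i : ℤ) * (P * (((N₀ : ℤ) + i) - n0 i / P)) :=
      dvd_add (hn0 i hi).2 (Dvd.dvd.mul_left (Dvd.dvd.mul_right (hmP i hi) _) _)
    have e : (x i : ℤ) * (n0 i + P * (((N₀ : ℤ) + i) - n0 i / P)) -
        ((y : ℤ) / 2 + ∑ j ∈ Finset.range i, (x j : ℤ)) - x i =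
        ((x i : ℤ) * n0 i - t i) + (x i : ℤ) * (P * (((N₀ : ℤ) + i) - n0 i / P)) := by
      simp only [ht]; ring
    rw [e]; exact h4
  · intro i hi i' hi' hlt
    have h4 : N i < N i' := by
      have a1 := hmod1 i
      have a2 := hmod0 i'
      have a3 : (i : ℤ) + 1 ≤ i' := by exact_mod_cast hlt
      simp only [hN]
      nlinarith
    have h5 : (((N i).toNat : ℕ) : ℤ) < (((N i').toNat : ℕ) : ℤ) := by
      rw [hcast, hcast]; exact h4
    exact_mod_cast h5

end Pool.Agent.W949.GS
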